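import Pool.Agent.H202Z.Du.Main

open scoped ComplexOrder
open Pool.Agent.H202Z.Du

namespace Pool.Agent.Results.MP_6169a9_an.NormAMGMFails

/-- The inequality `W_m ≥ D_m` fails: for `m = n = 9` there are a dimension `d ≥ 1` and positive
semidefinite `d × d` matrices with real entries for which `W_m < D_m`. -/
theorem result :
    ∃ (m n d : ℕ) (A : Fin n → Matrix (Fin d) (Fin d) ℂ),
      m = 9 ∧ n = 9 ∧ 1 ≤ d ∧ (∀ j, (A j).PosSemidef) ∧ (∀ j a b, (A j a b).im = 0) ∧
      W m A < D m A :=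
  ⟨9, 9, dim, A, rfl, rfl, dim_pos, A_psd, A_real, lt_of_lt_of_le W_lt D_ge⟩

end Pool.Agent.Results.MP_6169a9_an.NormAMGMFails
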